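import Pool.Agent.Helper10.CYC.Blocks
import Pool.Agent.Helper91.CYC.PieceA

/-!
# The two-block functional in characteristic two

`f = F0(X^2)`, `deg F0 = r`.  For families `p q : Fin r → R[X]`,
`LAM F0 p q = ∑ π, dd F0 (fun j => odp (p j * q (π j)))`, where `odp` is the odd part.
Transfer: `∑ σ τ, dd f (X^i p (σ i) ; X^j q (τ j)) = LAM F0 p q`.
-/

set_option autoImplicit false

namespace Pool.Agent.Helper70.CYC

open Finset Polynomial
open Pool.Agent.Helper10.CYC Pool.Agent.Helper91.CYC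

section parts

variable {R : Type*} [CommRing R]

/-- even part -/
noncomputable def evp (g : R[X]) : R[X] := contract 2 g

/-- odd part -/
noncomputable def odp (g : R[X]) : R[X] := contract 2 (divX g)

lemma coeff_evp (g : R[X]) (n : ℕ) : (evp g).coeff n = g.coeff (n * 2) := by
  rw [evp, coeff_contract (by norm_num)]

lemma coeff_odp (g : R[X]) (n : ℕ) : (odp g).coeff n = g.coeff (n * 2 + 1) := by
  rw [odp, coeff_contract (by norm_num), coeff_divX]

lemma evp_add (g h : R[X]) : evp (g + h) = evp g + evp h := by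
  ext n; simp only [coeff_evp, coeff_add]

lemma odp_add (g h : R[X]) : odp (g + h) = odp g + odp h := by
  ext n; simp only [coeff_odp, coeff_add]

lemma evp_X_mul (g : R[X]) : evp (X * g) = X * odp g := by
  ext n
  rw [coeff_evp]
  cases n with
  | zero => simp
  | succ n =>
    rw [coeff_X_mul, coeff_odp, show (n + 1) * 2 = (n * 2 + 1) + 1 by ring, coeff_X_mul]

lemma odp_X_mul (g : R[X]) : odp (X * g) = evp g := by
  ext n
  rw [coeff_odp, coeff_evp, coeff_X_mul]

lemma evp_C_mul (a : R) (g : R[X]) : evp (C a * g) = C a * evp g := by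
  ext n; rw [coeff_evp, coeff_C_mul, coeff_C_mul, coeff_evp]

lemma odp_C_mul (a : R) (g : R[X]) : odp (C a * g) = C a * odp g := by
  ext n; rw [coeff_odp, coeff_C_mul, coeff_C_mul, coeff_odp]

lemma split_parts (g : R[X]) :
    g = Polynomial.expand R 2 (evp g) + X * Polynomial.expand R 2 (odp g) := by
  ext n
  rcases Nat.even_or_odd' n with ⟨m, rfl | rfl⟩
  · rw [coeff_add, mul_comm 2 m, coeff_expand_mul (by norm_num), coeff_evp]
    cases m with
    | zero => simp
    | succ m =>
      rw [show (m + 1) * 2 = (m * 2 + 1) + 1 by ring, coeff_X_mul,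
        coeff_expand (show 0 < 2 by norm_num), if_neg (by omega), add_zero]
  · rw [coeff_add, coeff_X_mul, coeff_expand (show 0 < 2 by norm_num), if_neg (by omega),
      zero_add, mul_comm 2 m, coeff_expand_mul (by norm_num), coeff_odp]

lemma evp_expand_mul (a g : R[X]) : evp (Polynomial.expand R 2 a * g) = a * evp g := by
  induction a using Polynomial.induction_on' with
  | add p q hp hq => rw [map_add, add_mul, evp_add, hp, hq, add_mul]
  | monomial n c =>
    induction n with
    | zero => rw [expand_monomial, zero_mul, monomial_zero_left, evp_C_mul]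
    | succ n ih =>
      have h1 : (monomial (n + 1) c : R[X]) = X * monomial n c := by
        rw [X_mul_monomial]
      rw [h1, map_mul, expand_X, mul_assoc, pow_two, mul_assoc, evp_X_mul, odp_X_mul, ih, mul_assoc]

lemma odp_expand_mul (a g : R[X]) : odp (Polynomial.expand R 2 a * g) = a * odp g := by
  induction a using Polynomial.induction_on' with
  | add p q hp hq => rw [map_add, add_mul, odp_add, hp, hq, add_mul]
  | monomial n c =>
    induction n with
    | zero => rw [expand_monomial, zero_mul, monomial_zero_left, odp_C_mul]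
    | succ n ih =>
      have h1 : (monomial (n + 1) c : R[X]) = X * monomial n c := by
        rw [X_mul_monomial]
      rw [h1, map_mul, expand_X, mul_assoc, pow_two, mul_assoc, odp_X_mul, evp_X_mul, ih, mul_assoc]

lemma odp_mul (g h : R[X]) : odp (g * h) = evp g * odp h + odp g * evp h := by
  conv_lhs => rw [split_parts g]
  rw [add_mul, odp_add, odp_expand_mul, mul_assoc, odp_X_mul, evp_expand_mul]

lemma evp_mul (g h : R[X]) : evp (g * h) = evp g * evp h + X * (odp g * odp h) := by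
  conv_lhs => rw [split_parts g]
  rw [add_mul, evp_add, evp_expand_mul, mul_assoc, evp_X_mul, odp_expand_mul]

lemma degree_evp_lt (g : R[X]) (r : ℕ) (h : g.degree < ((2 * r : ℕ) : WithBot ℕ)) :
    (evp g).degree < (r : WithBot ℕ) := by
  rw [degree_lt_iff_coeff_zero] at h ⊢
  intro m hm
  rw [coeff_evp]
  exact h _ (by omega)

lemma degree_odp_lt (g : R[X]) (r : ℕ) (h : g.degree < ((2 * r : ℕ) : WithBot ℕ)) :
    (odp g).degree < (r : WithBot ℕ) := by
  rw [degree_lt_iff_coeff_zero] at h ⊢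
  intro m hm
  rw [coeff_odp]
  exact h _ (by omega)

lemma monic_expand2 (F : R[X]) (hF : F.Monic) : (Polynomial.expand R 2 F).Monic :=
  hF.expand (by norm_num)

lemma evp_mod (F g : R[X]) (hF : F.Monic) :
    evp (g %ₘ Polynomial.expand R 2 F) = evp g %ₘ F := by
  rcases subsingleton_or_nontrivial R with hR | hR
  · exact Subsingleton.elim _ _
  have hm := monic_expand2 F hF
  have h1 := modByMonic_add_div g (Polynomial.expand R 2 F)
  have h2 : evp (g %ₘ Polynomial.expand R 2 F) + F * evp (g /ₘ Polynomial.expand R 2 F) = evp g := by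
    rw [← evp_expand_mul, ← evp_add, h1]
  have hd : (evp (g %ₘ Polynomial.expand R 2 F)).degree < F.degree := by
    rw [degree_eq_natDegree hF.ne_zero]
    apply degree_evp_lt
    have h3 := degree_modByMonic_lt g hm
    rwa [degree_eq_natDegree hm.ne_zero, natDegree_expand, mul_comm] at h3
  exact ((div_modByMonic_unique _ _ hF ⟨h2, hd⟩).2).symm

lemma odp_mod (F g : R[X]) (hF : F.Monic) :
    odp (g %ₘ Polynomial.expand R 2 F) = odp g %ₘ F := by
  rcases subsingleton_or_nontrivial R with hR | hR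
  · exact Subsingleton.elim _ _
  have hm := monic_expand2 F hF
  have h1 := modByMonic_add_div g (Polynomial.expand R 2 F)
  have h2 : odp (g %ₘ Polynomial.expand R 2 F) + F * odp (g /ₘ Polynomial.expand R 2 F) = odp g := by
    rw [← odp_expand_mul, ← odp_add, h1]
  have hd : (odp (g %ₘ Polynomial.expand R 2 F)).degree < F.degree := by
    rw [degree_eq_natDegree hF.ne_zero]
    apply degree_odp_lt
    have h3 := degree_modByMonic_lt g hm
    rwa [degree_eq_natDegree hm.ne_zero, natDegree_expand, mul_comm] at h3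
  exact ((div_modByMonic_unique _ _ hF ⟨h2, hd⟩).2).symm

lemma sign_two [CharP R 2] {α : Type*} [Fintype α] [DecidableEq α] (σ : Equiv.Perm α) :
    ((Equiv.Perm.sign σ : ℤ) : R) = 1 := by
  rcases Int.units_eq_one_or (Equiv.Perm.sign σ) with h | h
  · rw [h]; simp
  · rw [h]
    push_cast
    have h2 : (2 : R) = 0 := CharTwo.two_eq_zero
    linear_combination (-1 : R) * h2

lemma det_submatrix_two [CharP R 2] {α β : Type*} [Fintype α] [DecidableEq α] [Fintype β]
    [DecidableEq β] (e1 e2 : β ≃ α) (A : Matrix α α R) : (A.submatrix e1 e2).det = A.det := by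
  have h : A.submatrix e1 e2 = (A.submatrix e1 e1).submatrix id (e2.trans e1.symm) := by
    ext i j
    simp
  rw [h, Matrix.det_permute', sign_two, one_mul, Matrix.det_submatrix_equiv_self]

end parts

section dd2

variable {R : Type} [CommRing R] {r : ℕ}

/-- `dd` for `f = F(X^2)` in coordinates. -/
noncomputable def dd2 (F : R[X]) (g : Fin r ⊕ Fin r → R[X]) : R :=
  (Matrix.of fun q c : Fin r ⊕ Fin r =>
    Sum.elim (fun m : Fin r => (evp (g c) %ₘ F).coeff (m : ℕ))
      (fun m : Fin r => (odp (g c) %ₘ F).coeff (m : ℕ)) q).det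

/-- the position of a row -/
def rowpos (r : ℕ) : Fin r ⊕ Fin r → Fin (r + r) :=
  Sum.elim (fun m => ⟨2 * (m : ℕ), by omega⟩) (fun m => ⟨2 * (m : ℕ) + 1, by omega⟩)

lemma rowpos_bij (r : ℕ) : Function.Bijective (rowpos r) := by
  rw [Fintype.bijective_iff_injective_and_card]
  refine ⟨?_, by simp⟩
  rintro (a | a) (b | b) h <;> simp only [rowpos, Sum.elim_inl, Sum.elim_inr, Fin.mk.injEq] at h
  · exact congrArg Sum.inl (Fin.ext (by omega))
  · omega
  · omega
  · exact congrArg Sum.inr (Fin.ext (by omega))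

lemma dd_expand [CharP R 2] (F : R[X]) (hF : F.Monic) (e : Fin r ⊕ Fin r ≃ Fin (r + r))
    (g : Fin r ⊕ Fin r → R[X]) :
    dd (Polynomial.expand R 2 F) (fun j => g (e.symm j)) = dd2 F g := by
  rw [dd, dd2, ← det_submatrix_two (Equiv.ofBijective _ (rowpos_bij r)) e]
  congr 1
  ext q c
  simp only [Matrix.submatrix_apply, Matrix.of_apply, Equiv.symm_apply_apply,
    Equiv.ofBijective_apply]
  rcases q with m | m
  · simp only [rowpos, Sum.elim_inl]
    rw [← evp_mod F _ hF, coeff_evp, mul_comm]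
  · simp only [rowpos, Sum.elim_inr]
    rw [← odp_mod F _ hF, coeff_odp, mul_comm]

/-- values of the parts at the points -/
noncomputable def vec (ρ : Fin r → R) (g : R[X]) : Fin r ⊕ Fin r → R :=
  Sum.elim (fun i => (evp g).eval (ρ i)) (fun i => (odp g).eval (ρ i))

lemma det_vec (ρ : Fin r → R) (g : Fin r ⊕ Fin r → R[X]) :
    (Matrix.of fun q c : Fin r ⊕ Fin r => vec ρ (g c) q).det
      = (Matrix.vandermonde ρ).det ^ 2 * dd2 (∏ i, (X - C (ρ i))) g := by
  have h : (Matrix.of fun q c : Fin r ⊕ Fin r => vec ρ (g c) q)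
      = Matrix.fromBlocks (Matrix.vandermonde ρ) 0 0 (Matrix.vandermonde ρ)
        * (Matrix.of fun q c : Fin r ⊕ Fin r =>
    Sum.elim (fun m : Fin r => (evp (g c) %ₘ (∏ i, (X - C (ρ i)))).coeff (m : ℕ))
      (fun m : Fin r => (odp (g c) %ₘ (∏ i, (X - C (ρ i)))).coeff (m : ℕ)) q) := by
    ext q c
    rw [Matrix.mul_apply, Fintype.sum_sum_type]
    rcases q with i | i
    · simp only [Matrix.of_apply, vec, Sum.elim_inl, Sum.elim_inr, Matrix.fromBlocks_apply₁₁,
        Matrix.fromBlocks_apply₁₂, Matrix.zero_apply, zero_mul, sum_const_zero, add_zero]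
      rw [coeff_sum_eval]
      simp only [Matrix.vandermonde_apply]
    · simp only [Matrix.of_apply, vec, Sum.elim_inl, Sum.elim_inr, Matrix.fromBlocks_apply₂₁,
        Matrix.fromBlocks_apply₂₂, Matrix.zero_apply, zero_mul, sum_const_zero, zero_add]
      rw [coeff_sum_eval]
      simp only [Matrix.vandermonde_apply]
  rw [h, Matrix.det_mul, Matrix.det_fromBlocks_zero₂₁, pow_two]
  rfl

end dd2

section multi

variable {R : Type} [CommRing R] {r : ℕ}

/-- the point of a row -/
def rt : Fin r ⊕ Fin r → Fin r := Sum.elim id id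

/-- restriction to the two rows of one point -/
def res (ρ : Fin r) (v : Fin r ⊕ Fin r → R) : Fin r ⊕ Fin r → R :=
  fun q => if rt q = ρ then v q else 0

lemma sum_res (v : Fin r ⊕ Fin r → R) : ∑ ρ, res ρ v = v := by
  ext q
  rw [Finset.sum_apply]
  simp only [res]
  rw [Finset.sum_ite_eq]
  simp

/-- the determinant as a function of the columns -/
noncomputable def D (v : Fin r ⊕ Fin r → (Fin r ⊕ Fin r → R)) : R :=
  Matrix.detRowAlternating v

lemma D_eq (v : Fin r ⊕ Fin r → (Fin r ⊕ Fin r → R)) :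
    D v = (Matrix.of fun q c => v c q).det := by
  rw [← Matrix.det_transpose]
  rfl

lemma D_perm [CharP R 2] (v : Fin r ⊕ Fin r → (Fin r ⊕ Fin r → R))
    (σ : Equiv.Perm (Fin r ⊕ Fin r)) : D (fun c => v (σ c)) = D v := by
  rw [D_eq, D_eq]
  have h := Matrix.det_permute' σ (Matrix.of fun q c => v c q)
  rw [sign_two, one_mul] at h
  rw [← h]
  rfl

lemma res_eq (ρ : Fin r) (x : Fin r ⊕ Fin r → R) :
    res ρ x = x (Sum.inl ρ) • (Pi.single (Sum.inl ρ) 1 : Fin r ⊕ Fin r → R)
      + x (Sum.inr ρ) • (Pi.single (Sum.inr ρ) 1 : Fin r ⊕ Fin r → R) := by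
  ext q
  rcases q with i | i
  · by_cases h : i = ρ
    · subst h
      simp [res, rt]
    · simp [res, rt, h]
  · by_cases h : i = ρ
    · subst h
      simp [res, rt]
    · simp [res, rt, h]

lemma two_slot [CharP R 2] (w : Fin r ⊕ Fin r → (Fin r ⊕ Fin r → R)) (c1 c2 : Fin r ⊕ Fin r)
    (hc : c1 ≠ c2) (ρ : Fin r) (x y : Fin r ⊕ Fin r → R) :
    D (Function.update (Function.update w c1 (res ρ x)) c2 (res ρ y))
      = (x (Sum.inl ρ) * y (Sum.inr ρ) + x (Sum.inr ρ) * y (Sum.inl ρ)) *
        D (Function.update (Function.update w c1 (Pi.single (Sum.inl ρ) 1)) c2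
          (Pi.single (Sum.inr ρ) 1)) := by
  set e1 : Fin r ⊕ Fin r → R := Pi.single (Sum.inl ρ) 1 with he1
  set e2 : Fin r ⊕ Fin r → R := Pi.single (Sum.inr ρ) 1 with he2
  have hin : ∀ z : Fin r ⊕ Fin r → R, D (Function.update (Function.update w c1 (res ρ x)) c2 z)
      = x (Sum.inl ρ) * D (Function.update (Function.update w c1 e1) c2 z)
        + x (Sum.inr ρ) * D (Function.update (Function.update w c1 e2) c2 z) := by
    intro z
    rw [Function.update_comm hc, Function.update_comm hc, Function.update_comm hc, res_eq ρ x]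
    simp only [D]
    rw [AlternatingMap.map_update_add, AlternatingMap.map_update_smul,
      AlternatingMap.map_update_smul, smul_eq_mul, smul_eq_mul]
  have hrep : ∀ z : Fin r ⊕ Fin r → R,
      D (Function.update (Function.update w c1 z) c2 z) = 0 := by
    intro z
    refine AlternatingMap.map_eq_zero_of_eq _ _ (i := c1) (j := c2) ?_ hc
    rw [Function.update_self, Function.update_of_ne hc, Function.update_self]
  have hsw : D (Function.update (Function.update w c1 e2) c2 e1)
      = D (Function.update (Function.update w c1 e1) c2 e2) := by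
    rw [← D_perm (Function.update (Function.update w c1 e1) c2 e2) (Equiv.swap c1 c2)]
    congr 1
    ext1 c
    by_cases h1 : c = c1
    · rw [h1, Equiv.swap_apply_left, Function.update_self, Function.update_of_ne hc,
        Function.update_self]
    · by_cases h2 : c = c2
      · rw [h2, Equiv.swap_apply_right, Function.update_self, Function.update_of_ne hc,
          Function.update_self]
      · rw [Equiv.swap_apply_of_ne_of_ne h1 h2, Function.update_of_ne h2,
          Function.update_of_ne h1, Function.update_of_ne h2, Function.update_of_ne h1]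
  rw [hin, res_eq ρ y]
  have h3 : ∀ z : Fin r ⊕ Fin r → R, D (Function.update (Function.update w c1 z) c2
      (y (Sum.inl ρ) • e1 + y (Sum.inr ρ) • e2))
      = y (Sum.inl ρ) * D (Function.update (Function.update w c1 z) c2 e1)
        + y (Sum.inr ρ) * D (Function.update (Function.update w c1 z) c2 e2) := by
    intro z
    simp only [D]
    rw [AlternatingMap.map_update_add, AlternatingMap.map_update_smul,
      AlternatingMap.map_update_smul, smul_eq_mul, smul_eq_mul]
  rw [h3, h3, hrep, hrep, hsw]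
  ring

lemma two_slot' [CharP R 2] (v v' : Fin r ⊕ Fin r → (Fin r ⊕ Fin r → R)) (c1 c2 : Fin r ⊕ Fin r)
    (hc : c1 ≠ c2) (ρ : Fin r) (x y x' y' : Fin r ⊕ Fin r → R)
    (h1 : v c1 = res ρ x) (h2 : v c2 = res ρ y) (h1' : v' c1 = res ρ x') (h2' : v' c2 = res ρ y')
    (hv : ∀ c, c ≠ c1 → c ≠ c2 → v c = v' c)
    (hB : x (Sum.inl ρ) * y (Sum.inr ρ) + x (Sum.inr ρ) * y (Sum.inl ρ)
      = x' (Sum.inl ρ) * y' (Sum.inr ρ) + x' (Sum.inr ρ) * y' (Sum.inl ρ)) : D v = D v' := by
  have e1 : v = Function.update (Function.update v c1 (res ρ x)) c2 (res ρ y) := by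
    rw [← h1, ← h2, Function.update_eq_self, Function.update_eq_self]
  have e2 : v' = Function.update (Function.update v c1 (res ρ x')) c2 (res ρ y') := by
    ext1 c
    by_cases hh2 : c = c2
    · rw [hh2, Function.update_self, h2']
    · by_cases hh1 : c = c1
      · rw [hh1, Function.update_of_ne hc, Function.update_self, h1']
      · rw [Function.update_of_ne hh2, Function.update_of_ne hh1, hv c hh1 hh2]
  rw [e1, e2, two_slot _ _ _ hc, two_slot _ _ _ hc, hB]

lemma D_sum (v : Fin r ⊕ Fin r → (Fin r ⊕ Fin r → R)) :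
    D v = ∑ Φ : Fin r ⊕ Fin r → Fin r, D (fun c => res (Φ c) (v c)) := by
  conv_lhs => rw [show v = fun c => ∑ ρ, res ρ (v c) from funext fun c => (sum_res (v c)).symm]
  exact MultilinearMap.map_sum
    (Matrix.detRowAlternating (n := Fin r ⊕ Fin r) (R := R)).toMultilinearMap
    (fun c ρ => res ρ (v c))

lemma vec_B (ρ : Fin r → R) (g h : R[X]) (i : Fin r) :
    vec ρ g (Sum.inl i) * vec ρ h (Sum.inr i) + vec ρ g (Sum.inr i) * vec ρ h (Sum.inl i)
      = (odp (g * h)).eval (ρ i) := by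
  simp only [vec, Sum.elim_inl, Sum.elim_inr]
  rw [odp_mul, eval_add, eval_mul, eval_mul]

/-- the columns -/
noncomputable def col (p q : Fin r → R[X]) (σ τ : Equiv.Perm (Fin r)) : Fin r ⊕ Fin r → R[X] :=
  Sum.elim (fun i => X ^ (i : ℕ) * p (σ i)) (fun j => X ^ (j : ℕ) * q (τ j))

lemma cancel_l [CharP R 2] (ρ : Fin r → R) (p q : Fin r → R[X]) (Φ : Fin r ⊕ Fin r → Fin r)
    (τ : Equiv.Perm (Fin r)) (i j : Fin r) (hij : i ≠ j)
    (hΦ : Φ (Sum.inl i) = Φ (Sum.inl j)) :
    ∑ σ : Equiv.Perm (Fin r), D (fun c => res (Φ c) (vec ρ (col p q σ τ c))) = 0 := by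
  have key : ∀ σ : Equiv.Perm (Fin r), D (fun c => res (Φ c) (vec ρ (col p q σ τ c)))
      = D (fun c => res (Φ c) (vec ρ (col p q (σ * Equiv.swap i j) τ c))) := by
    intro σ
    refine two_slot' _ _ (Sum.inl i) (Sum.inl j) (fun h => hij (Sum.inl_injective h))
      (Φ (Sum.inl i)) _ _ _ _ rfl (by rw [hΦ]) rfl (by rw [hΦ]) ?_ ?_
    · rintro (c | c) h1 h2
      · simp only [col, Sum.elim_inl, Equiv.Perm.mul_apply]
        rw [Equiv.swap_apply_of_ne_of_ne (fun h => h1 (congrArg Sum.inl h))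
          (fun h => h2 (congrArg Sum.inl h))]
      · rfl
    · rw [vec_B, vec_B]
      simp only [col, Sum.elim_inl, Equiv.Perm.mul_apply, Equiv.swap_apply_left,
        Equiv.swap_apply_right]
      congr 2
      ring
  refine Finset.sum_involution (fun σ _ => σ * Equiv.swap i j) ?_ ?_ ?_ ?_
  · intro σ _
    rw [← key]
    exact CharTwo.add_self_eq_zero _
  · intro σ _ _ h
    have h1 := congrArg (fun t : Equiv.Perm (Fin r) => t i) h
    simp only [Equiv.Perm.mul_apply, Equiv.swap_apply_left] at h1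
    exact hij (σ.injective h1).symm
  · intro σ _
    exact mem_univ _
  · intro σ _
    rw [mul_assoc, Equiv.swap_mul_self, mul_one]

lemma cancel_r [CharP R 2] (ρ : Fin r → R) (p q : Fin r → R[X]) (Φ : Fin r ⊕ Fin r → Fin r)
    (σ : Equiv.Perm (Fin r)) (i j : Fin r) (hij : i ≠ j)
    (hΦ : Φ (Sum.inr i) = Φ (Sum.inr j)) :
    ∑ τ : Equiv.Perm (Fin r), D (fun c => res (Φ c) (vec ρ (col p q σ τ c))) = 0 := by
  have key : ∀ τ : Equiv.Perm (Fin r), D (fun c => res (Φ c) (vec ρ (col p q σ τ c)))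
      = D (fun c => res (Φ c) (vec ρ (col p q σ (τ * Equiv.swap i j) c))) := by
    intro τ
    refine two_slot' _ _ (Sum.inr i) (Sum.inr j) (fun h => hij (Sum.inr_injective h))
      (Φ (Sum.inr i)) _ _ _ _ rfl (by rw [hΦ]) rfl (by rw [hΦ]) ?_ ?_
    · rintro (c | c) h1 h2
      · rfl
      · simp only [col, Sum.elim_inr, Equiv.Perm.mul_apply]
        rw [Equiv.swap_apply_of_ne_of_ne (fun h => h1 (congrArg Sum.inr h))
          (fun h => h2 (congrArg Sum.inr h))]
    · rw [vec_B, vec_B]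
      simp only [col, Sum.elim_inr, Equiv.Perm.mul_apply, Equiv.swap_apply_left,
        Equiv.swap_apply_right]
      congr 2
      ring
  refine Finset.sum_involution (fun τ _ => τ * Equiv.swap i j) ?_ ?_ ?_ ?_
  · intro τ _
    rw [← key]
    exact CharTwo.add_self_eq_zero _
  · intro τ _ _ h
    have h1 := congrArg (fun t : Equiv.Perm (Fin r) => t i) h
    simp only [Equiv.Perm.mul_apply, Equiv.swap_apply_left] at h1
    exact hij (τ.injective h1).symm
  · intro τ _
    exact mem_univ _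
  · intro τ _
    rw [mul_assoc, Equiv.swap_mul_self, mul_one]

lemma sum_fun_perm {M : Type*} [AddCommMonoid M] (F : (Fin r → Fin r) → M)
    (h : ∀ φ, ¬ Function.Injective φ → F φ = 0) :
    ∑ φ : Fin r → Fin r, F φ = ∑ σ : Equiv.Perm (Fin r), F σ := by
  classical
  symm
  refine Finset.sum_of_injOn (fun σ : Equiv.Perm (Fin r) => (σ : Fin r → Fin r)) ?_ ?_ ?_ ?_
  · intro σ _ τ _ hh
    exact Equiv.ext (congrFun hh)
  · intro σ _
    exact mem_coe.2 (mem_univ _)
  · intro φ _ hφ
    apply h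
    intro hinj
    apply hφ
    refine ⟨Equiv.ofBijective φ (Finite.injective_iff_bijective.1 hinj), mem_coe.2 (mem_univ _), ?_⟩
    rfl
  · intro σ _
    rfl

lemma D_block (x y : Fin r → (Fin r ⊕ Fin r → R)) :
    D (Sum.elim (fun i => res i (x i)) (fun i => res i (y i)))
      = ∏ i, (x i (Sum.inl i) * y i (Sum.inr i) - x i (Sum.inr i) * y i (Sum.inl i)) := by
  rw [D_eq, ← Matrix.det_submatrix_equiv_self (Equiv.boolProdEquivSum (Fin r))]
  have h : (Matrix.of fun q c => Sum.elim (fun i => res i (x i)) (fun i => res i (y i)) c q :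
      Matrix (Fin r ⊕ Fin r) (Fin r ⊕ Fin r) R).submatrix (Equiv.boolProdEquivSum (Fin r))
        (Equiv.boolProdEquivSum (Fin r))
      = Matrix.blockDiagonal (fun i => Matrix.of fun a b : Bool =>
          (if b then y i else x i) (if a then Sum.inr i else Sum.inl i)) := by
    ext ⟨a, i⟩ ⟨b, j⟩
    rw [Matrix.blockDiagonal_apply]
    cases a <;> cases b <;> by_cases hij : i = j <;>
      simp [res, rt, Equiv.boolProdEquivSum, hij]
  rw [h, Matrix.det_blockDiagonal]
  refine Finset.prod_congr rfl (fun i _ => ?_)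
  rw [← Matrix.det_submatrix_equiv_self finTwoEquiv, Matrix.det_fin_two]
  simp [finTwoEquiv]
  ring

lemma D_block_perm [CharP R 2] (φ φ' : Equiv.Perm (Fin r)) (x y : Fin r → (Fin r ⊕ Fin r → R)) :
    D (fun c => res (Sum.elim φ φ' c) (Sum.elim x y c))
      = ∏ i, (x (φ⁻¹ i) (Sum.inl i) * y (φ'⁻¹ i) (Sum.inr i)
        + x (φ⁻¹ i) (Sum.inr i) * y (φ'⁻¹ i) (Sum.inl i)) := by
  rw [← D_perm _ (Equiv.Perm.sumCongr φ⁻¹ φ'⁻¹)]
  have h : (fun c => res (Sum.elim φ φ' ((Equiv.Perm.sumCongr φ⁻¹ φ'⁻¹) c))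
      (Sum.elim x y ((Equiv.Perm.sumCongr φ⁻¹ φ'⁻¹) c)))
      = Sum.elim (fun i => res i ((fun i => x (φ⁻¹ i)) i))
        (fun i => res i ((fun i => y (φ'⁻¹ i)) i)) := by
    ext1 c
    rcases c with i | i
    · simp
    · simp
  rw [h, D_block]
  refine Finset.prod_congr rfl (fun i _ => ?_)
  rw [CharTwo.sub_eq_add]

lemma sum_elim_fun {M : Type*} [AddCommMonoid M] (G : (Fin r ⊕ Fin r → Fin r) → M) :
    ∑ Φ, G Φ = ∑ φ : Fin r → Fin r, ∑ φ' : Fin r → Fin r, G (Sum.elim φ φ') := by
  rw [← Fintype.sum_prod_type' (f := fun φ φ' => G (Sum.elim φ φ'))]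
  exact Fintype.sum_equiv (Equiv.sumArrowEquivProdArrow (Fin r) (Fin r) (Fin r)) _ _
    (fun Φ => by
      congr 1
      ext1 c
      rcases c with i | i <;> rfl)

lemma T_eq [CharP R 2] (ρ : Fin r → R) (p q : Fin r → R[X]) :
    ∑ σ : Equiv.Perm (Fin r), ∑ τ : Equiv.Perm (Fin r), D (fun c => vec ρ (col p q σ τ c))
      = ∑ u : Equiv.Perm (Fin r), ∑ u' : Equiv.Perm (Fin r), ∑ w : Equiv.Perm (Fin r),
        ∑ w' : Equiv.Perm (Fin r), ∏ i, (odp (X ^ (u i : ℕ) * p (w i) *
          (X ^ (u' i : ℕ) * q (w' i)))).eval (ρ i) := by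
  have h1 : ∀ σ τ : Equiv.Perm (Fin r), D (fun c => vec ρ (col p q σ τ c))
      = ∑ φ : Fin r → Fin r, ∑ φ' : Fin r → Fin r,
        D (fun c => res (Sum.elim φ φ' c) (vec ρ (col p q σ τ c))) := by
    intro σ τ
    rw [D_sum, sum_elim_fun]
  have h2 : ∑ σ : Equiv.Perm (Fin r), ∑ τ : Equiv.Perm (Fin r),
      D (fun c => vec ρ (col p q σ τ c))
      = ∑ φ : Fin r → Fin r, ∑ φ' : Fin r → Fin r, ∑ σ : Equiv.Perm (Fin r),
        ∑ τ : Equiv.Perm (Fin r), D (fun c => res (Sum.elim φ φ' c) (vec ρ (col p q σ τ c))) := by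
    calc ∑ σ : Equiv.Perm (Fin r), ∑ τ : Equiv.Perm (Fin r), D (fun c => vec ρ (col p q σ τ c))
        = ∑ x : Equiv.Perm (Fin r) × Equiv.Perm (Fin r),
          ∑ y : (Fin r → Fin r) × (Fin r → Fin r),
            D (fun c => res (Sum.elim y.1 y.2 c) (vec ρ (col p q x.1 x.2 c))) := by
          rw [Fintype.sum_prod_type]
          refine Finset.sum_congr rfl (fun σ _ => Finset.sum_congr rfl (fun τ _ => ?_))
          rw [h1, Fintype.sum_prod_type]
      _ = _ := by
          rw [Finset.sum_comm, Fintype.sum_prod_type]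
          refine Finset.sum_congr rfl (fun φ _ => Finset.sum_congr rfl (fun φ' _ => ?_))
          rw [Fintype.sum_prod_type]
  rw [h2, sum_fun_perm]
  swap
  · intro φ hφ
    refine Finset.sum_eq_zero (fun φ' _ => ?_)
    rw [Finset.sum_comm]
    refine Finset.sum_eq_zero (fun τ _ => ?_)
    rw [Function.not_injective_iff] at hφ
    obtain ⟨i, j, hij, hne⟩ := hφ
    exact cancel_l ρ p q (Sum.elim φ φ') τ i j hne hij
  rw [← Equiv.sum_comp (Equiv.inv (Equiv.Perm (Fin r)))]
  refine Finset.sum_congr rfl (fun u _ => ?_)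
  rw [sum_fun_perm]
  swap
  · intro φ' hφ
    refine Finset.sum_eq_zero (fun σ _ => ?_)
    rw [Function.not_injective_iff] at hφ
    obtain ⟨i, j, hij, hne⟩ := hφ
    exact cancel_r ρ p q (Sum.elim _ φ') σ i j hne hij
  rw [← Equiv.sum_comp (Equiv.inv (Equiv.Perm (Fin r)))]
  refine Finset.sum_congr rfl (fun u' _ => ?_)
  rw [← Equiv.sum_comp (Equiv.mulRight (u⁻¹))]
  refine Finset.sum_congr rfl (fun w _ => ?_)
  rw [← Equiv.sum_comp (Equiv.mulRight (u'⁻¹))]
  refine Finset.sum_congr rfl (fun w' _ => ?_)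
  have h3 : (fun c => res (Sum.elim ((Equiv.inv (Equiv.Perm (Fin r))) u)
      ((Equiv.inv (Equiv.Perm (Fin r))) u') c)
      (vec ρ (col p q ((Equiv.mulRight u⁻¹) w) ((Equiv.mulRight u'⁻¹) w') c)))
      = (fun c => res (Sum.elim (u⁻¹ : Equiv.Perm (Fin r)) (u'⁻¹ : Equiv.Perm (Fin r)) c)
        (Sum.elim (fun i : Fin r => vec ρ (X ^ (i : ℕ) * p (w (u⁻¹ i))))
          (fun i : Fin r => vec ρ (X ^ (i : ℕ) * q (w' (u'⁻¹ i)))) c)) := by
    ext1 c
    rcases c with i | i <;> rfl
  rw [h3, D_block_perm]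
  refine Finset.prod_congr rfl (fun i _ => ?_)
  rw [vec_B, inv_inv, inv_inv]
  have hu : (u⁻¹ : Equiv.Perm (Fin r)) (u i) = i := by simp
  have hu' : (u'⁻¹ : Equiv.Perm (Fin r)) (u' i) = i := by simp
  rw [hu, hu']

lemma sum_symm {M : Type*} [CommRing M] [CharP M 2] {α : Type*} [Fintype α] [DecidableEq α]
    (G : α → α → M) (h : ∀ x y, G x y = G y x) : ∑ x, ∑ y, G x y = ∑ x, G x x := by
  rw [← Fintype.sum_prod_type' (f := fun x y => G x y)]
  rw [← Finset.sum_filter_add_sum_filter_not univ (fun z : α × α => z.1 = z.2)]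
  have h1 : ∑ z ∈ univ.filter (fun z : α × α => ¬ z.1 = z.2), G z.1 z.2 = 0 := by
    refine Finset.sum_involution (fun z _ => z.swap) ?_ ?_ ?_ ?_
    · intro z _
      rw [Prod.fst_swap, Prod.snd_swap, h z.2 z.1]
      exact CharTwo.add_self_eq_zero _
    · intro z hz _ hh
      rw [mem_filter] at hz
      exact hz.2 (congrArg Prod.snd hh)
    · intro z hz
      rw [mem_filter] at hz ⊢
      exact ⟨mem_univ _, fun hh => hz.2 hh.symm⟩
    · intro z _
      exact Prod.swap_swap z
  rw [h1, add_zero]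
  symm
  refine Finset.sum_nbij (fun x => (x, x)) ?_ ?_ ?_ ?_
  · intro x _
    simp
  · intro x _ y _ hh
    exact congrArg Prod.fst hh
  · rintro ⟨x, y⟩ hz
    rw [mem_coe, mem_filter] at hz
    exact ⟨x, mem_coe.2 (mem_univ _), by
      have h2 : x = y := hz.2
      rw [h2]⟩
  · intro x _
    rfl

/-- the two-block functional -/
noncomputable def LAM (F : R[X]) (p q : Fin r → R[X]) : R :=
  ∑ π : Equiv.Perm (Fin r), dd F (fun j => odp (p j * q (π j)))

lemma vand_two [CharP R 2] (ρ : Fin r → R) :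
    (Matrix.vandermonde ρ).det = ∑ u : Equiv.Perm (Fin r), ∏ i, ρ i ^ (u i : ℕ) := by
  rw [← Matrix.det_transpose, Matrix.det_apply']
  refine Finset.sum_congr rfl (fun u _ => ?_)
  rw [sign_two, one_mul]
  rfl

lemma odp_X2_mul (n : ℕ) (g : R[X]) : odp (X ^ (2 * n) * g) = X ^ n * odp g := by
  have h : (X : R[X]) ^ (2 * n) = Polynomial.expand R 2 (X ^ n) := by
    rw [map_pow, expand_X, pow_mul]
  rw [h, odp_expand_mul]

lemma T_eq2 [CharP R 2] (ρ : Fin r → R) (p q : Fin r → R[X]) :
    ∑ σ : Equiv.Perm (Fin r), ∑ τ : Equiv.Perm (Fin r), D (fun c => vec ρ (col p q σ τ c))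
      = (Matrix.vandermonde ρ).det * ∑ w : Equiv.Perm (Fin r),
        ∑ w' : Equiv.Perm (Fin r), ∏ i, (odp (p (w i) * q (w' i))).eval (ρ i) := by
  rw [T_eq, sum_symm]
  · rw [vand_two, Finset.sum_mul]
    refine Finset.sum_congr rfl (fun u _ => ?_)
    rw [Finset.mul_sum]
    refine Finset.sum_congr rfl (fun w _ => ?_)
    rw [Finset.mul_sum]
    refine Finset.sum_congr rfl (fun w' _ => ?_)
    rw [← Finset.prod_mul_distrib]
    refine Finset.prod_congr rfl (fun i _ => ?_)
    rw [show X ^ (u i : ℕ) * p (w i) * (X ^ (u i : ℕ) * q (w' i))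
      = X ^ (2 * (u i : ℕ)) * (p (w i) * q (w' i)) by ring, odp_X2_mul, eval_mul, eval_pow, eval_X]
  · intro u u'
    refine Finset.sum_congr rfl (fun w _ => Finset.sum_congr rfl (fun w' _ =>
      Finset.prod_congr rfl (fun i _ => ?_)))
    congr 2
    ring

lemma LAM_eq [CharP R 2] (ρ : Fin r → R) (p q : Fin r → R[X]) :
    (Matrix.vandermonde ρ).det * LAM (∏ i, (X - C (ρ i))) p q
      = ∑ w : Equiv.Perm (Fin r), ∑ w' : Equiv.Perm (Fin r),
        ∏ i, (odp (p (w i) * q (w' i))).eval (ρ i) := by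
  have h : ∀ π : Equiv.Perm (Fin r), (Matrix.vandermonde ρ).det *
      dd (∏ i, (X - C (ρ i))) (fun j => odp (p j * q (π j)))
      = ∑ w : Equiv.Perm (Fin r), ∏ i, (odp (p (w i) * q ((π * w) i))).eval (ρ i) := by
    intro π
    rw [← st_a2, ← Matrix.det_transpose, Matrix.det_apply']
    refine Finset.sum_congr rfl (fun w _ => ?_)
    rw [sign_two, one_mul]
    rfl
  rw [LAM, Finset.mul_sum, Finset.sum_congr rfl (fun π _ => h π), Finset.sum_comm]
  refine Finset.sum_congr rfl (fun w _ => ?_)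
  exact Equiv.sum_comp (Equiv.mulRight w)
    (fun w' => ∏ i, (odp (p (w i) * q (w' i))).eval (ρ i))

/-- transfer for distinct points -/
lemma transfer_dist [CharP R 2] [IsDomain R] (ρ : Fin r → R) (hρ : Function.Injective ρ)
    (p q : Fin r → R[X]) :
    ∑ σ : Equiv.Perm (Fin r), ∑ τ : Equiv.Perm (Fin r), dd2 (∏ i, (X - C (ρ i))) (col p q σ τ)
      = LAM (∏ i, (X - C (ρ i))) p q := by
  have hV : (Matrix.vandermonde ρ).det ≠ 0 := Matrix.det_vandermonde_ne_zero_iff.2 hρ
  have h1 : (Matrix.vandermonde ρ).det ^ 2 *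
      ∑ σ : Equiv.Perm (Fin r), ∑ τ : Equiv.Perm (Fin r), dd2 (∏ i, (X - C (ρ i))) (col p q σ τ)
      = ∑ σ : Equiv.Perm (Fin r), ∑ τ : Equiv.Perm (Fin r),
        D (fun c => vec ρ (col p q σ τ c)) := by
    rw [Finset.mul_sum]
    refine Finset.sum_congr rfl (fun σ _ => ?_)
    rw [Finset.mul_sum]
    refine Finset.sum_congr rfl (fun τ _ => ?_)
    rw [← det_vec, D_eq]
  rw [T_eq2, ← LAM_eq] at h1
  have h2 : (Matrix.vandermonde ρ).det ^ 2 ≠ 0 := pow_ne_zero _ hV
  apply mul_left_cancel₀ h2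
  rw [h1]
  ring

end multi

section gen

variable {R : Type} [CommRing R] {r : ℕ}

lemma evp_map {S : Type} [CommRing S] (φ : R →+* S) (g : R[X]) : (evp g).map φ = evp (g.map φ) := by
  ext n; rw [coeff_map, coeff_evp, coeff_evp, coeff_map]

lemma odp_map {S : Type} [CommRing S] (φ : R →+* S) (g : R[X]) : (odp g).map φ = odp (g.map φ) := by
  ext n; rw [coeff_map, coeff_odp, coeff_odp, coeff_map]

lemma monic_rho (ρ : Fin r → R) : (∏ i, (X - C (ρ i))).Monic :=
  monic_prod_of_monic _ _ (fun i _ => monic_X_sub_C _)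

lemma map_rho {S : Type} [CommRing S] (φ : R →+* S) (ρ : Fin r → R) :
    (∏ i, (X - C (ρ i))).map φ = ∏ i, (X - C (φ (ρ i))) := by
  rw [Polynomial.map_prod]
  refine Finset.prod_congr rfl (fun i _ => ?_)
  rw [Polynomial.map_sub, map_X, map_C]

lemma dd2_map {S : Type} [CommRing S] (φ : R →+* S) (F : R[X]) (hF : F.Monic)
    (g : Fin r ⊕ Fin r → R[X]) : φ (dd2 F g) = dd2 (F.map φ) (fun c => (g c).map φ) := by
  rw [dd2, dd2, RingHom.map_det]
  congr 1
  ext q c
  simp only [RingHom.mapMatrix_apply, Matrix.map_apply, Matrix.of_apply]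
  rcases q with m | m
  · simp only [Sum.elim_inl]
    rw [← evp_map, ← Polynomial.map_modByMonic φ hF, coeff_map]
  · simp only [Sum.elim_inr]
    rw [← odp_map, ← Polynomial.map_modByMonic φ hF, coeff_map]

lemma LAM_map {S : Type} [CommRing S] (φ : R →+* S) (F : R[X]) (hF : F.Monic)
    (p q : Fin r → R[X]) :
    φ (LAM F p q) = LAM (F.map φ) (fun i => (p i).map φ) (fun i => (q i).map φ) := by
  rw [LAM, LAM, map_sum]
  refine Finset.sum_congr rfl (fun π _ => ?_)
  rw [st_a1 R S φ r F hF]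
  congr 1
  ext1 j
  rw [odp_map, Polynomial.map_mul]

/-- the transfer, coordinates form -/
theorem transfer2 [CharP R 2] (ρ : Fin r → R) (p q : Fin r → R[X]) :
    ∑ σ : Equiv.Perm (Fin r), ∑ τ : Equiv.Perm (Fin r), dd2 (∏ i, (X - C (ρ i))) (col p q σ τ)
      = LAM (∏ i, (X - C (ρ i))) p q := by
  let A := MvPolynomial (R ⊕ Fin r) (ZMod 2)
  let φ : A →+* R := MvPolynomial.eval₂Hom (ZMod.castHom (dvd_refl 2) R) (Sum.elim id ρ)
  have hsurj : Function.Surjective φ := fun x => ⟨MvPolynomial.X (Sum.inl x),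
    MvPolynomial.eval₂_X _ _ _⟩
  let ρ' : Fin r → A := fun i => MvPolynomial.X (Sum.inr i)
  have hρ' : Function.Injective ρ' := by
    intro i j h
    exact Sum.inr_injective (MvPolynomial.X_injective h)
  have hρφ : ∀ i, φ (ρ' i) = ρ i := fun i => MvPolynomial.eval₂_X _ _ _
  have : CharP A 2 := inferInstance
  have : IsDomain A := inferInstance
  choose p' hp' using fun i => Polynomial.map_surjective φ hsurj (p i)
  choose q' hq' using fun i => Polynomial.map_surjective φ hsurj (q i)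
  have h := congrArg φ (transfer_dist ρ' hρ' p' q')
  rw [LAM_map φ _ (monic_rho ρ'), map_rho, map_sum] at h
  simp only [hρφ, hp', hq'] at h
  rw [← h]
  refine Finset.sum_congr rfl (fun σ _ => ?_)
  rw [map_sum]
  refine Finset.sum_congr rfl (fun τ _ => ?_)
  rw [dd2_map φ _ (monic_rho ρ'), map_rho]
  simp only [hρφ]
  congr 1
  ext1 c
  rcases c with i | i
  · simp only [col, Sum.elim_inl]
    rw [Polynomial.map_mul, Polynomial.map_pow, map_X, hp']
  · simp only [col, Sum.elim_inr]
    rw [Polynomial.map_mul, Polynomial.map_pow, map_X, hq']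

/-- the transfer -/
theorem transfer [CharP R 2] (ρ : Fin r → R) (e : Fin r ⊕ Fin r ≃ Fin (r + r))
    (p q : Fin r → R[X]) :
    ∑ σ : Equiv.Perm (Fin r), ∑ τ : Equiv.Perm (Fin r),
      dd (Polynomial.expand R 2 (∏ i, (X - C (ρ i)))) (fun j => col p q σ τ (e.symm j))
      = LAM (∏ i, (X - C (ρ i))) p q := by
  rw [← transfer2]
  refine Finset.sum_congr rfl (fun σ _ => Finset.sum_congr rfl (fun τ _ => ?_))
  rw [dd_expand _ (monic_rho ρ)]

end gen

end Pool.Agent.Helper70.CYC
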