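import Pool.Agent.Helper70.CYC.Lam

/-!
# Calculus of the two-block functional: symmetry, repetition, Plucker
-/

set_option autoImplicit false

namespace Pool.Agent.Helper70.CYC

open Finset Polynomial
open Pool.Agent.Helper10.CYC Pool.Agent.Helper91.CYC

section calculus

variable {R : Type} [CommRing R] {r : ℕ}

lemma LAM_perm_r (F : R[X]) (p q : Fin r → R[X]) (σ : Equiv.Perm (Fin r)) :
    LAM F p (fun i => q (σ i)) = LAM F p q := by
  rw [LAM, LAM]
  exact Equiv.sum_comp (Equiv.mulLeft σ) (fun π => dd F (fun j => odp (p j * q (π j))))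

lemma LAM_comm [CharP R 2] (F : R[X]) (p q : Fin r → R[X]) : LAM F p q = LAM F q p := by
  rw [LAM, LAM, ← Equiv.sum_comp (Equiv.inv (Equiv.Perm (Fin r)))]
  refine Finset.sum_congr rfl (fun π _ => ?_)
  rw [← dd_perm2 F _ π]
  congr 1
  ext1 j
  simp only [Equiv.inv_apply]
  have h : (π⁻¹ : Equiv.Perm (Fin r)) (π j) = j := by simp
  rw [h, mul_comm]

lemma LAM_perm_l [CharP R 2] (F : R[X]) (p q : Fin r → R[X]) (σ : Equiv.Perm (Fin r)) :
    LAM F (fun i => p (σ i)) q = LAM F p q := by
  rw [LAM_comm, LAM_perm_r, LAM_comm]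

lemma LAM_rep_l [CharP R 2] (F : R[X]) (p q : Fin r → R[X]) (i j : Fin r) (hij : i ≠ j)
    (h : p i = p j) : LAM F p q = 0 := by
  have hp : ∀ t, p (Equiv.swap i j t) = p t := by
    intro t
    by_cases h1 : t = i
    · rw [h1, Equiv.swap_apply_left, h]
    · by_cases h2 : t = j
      · rw [h2, Equiv.swap_apply_right, h]
      · rw [Equiv.swap_apply_of_ne_of_ne h1 h2]
  rw [LAM]
  refine Finset.sum_involution (fun π _ => π * Equiv.swap i j) ?_ ?_ ?_ ?_
  · intro π _
    have key : dd F (fun t => odp (p t * q ((π * Equiv.swap i j) t)))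
        = dd F (fun t => odp (p t * q (π t))) := by
      rw [← dd_perm2 F (fun t => odp (p t * q (π t))) (Equiv.swap i j)]
      congr 1
      ext1 t
      rw [hp, Equiv.Perm.mul_apply]
    rw [key]
    exact CharTwo.add_self_eq_zero _
  · intro π _ _ hh
    have h1 := congrArg (fun t : Equiv.Perm (Fin r) => t i) hh
    simp only [Equiv.Perm.mul_apply, Equiv.swap_apply_left] at h1
    exact hij (π.injective h1).symm
  · intro π _
    exact mem_univ _
  · intro π _
    rw [mul_assoc, Equiv.swap_mul_self, mul_one]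

lemma LAM_rep_r [CharP R 2] (F : R[X]) (p q : Fin r → R[X]) (i j : Fin r) (hij : i ≠ j)
    (h : q i = q j) : LAM F p q = 0 := by
  rw [LAM_comm]; exact LAM_rep_l F q p i j hij h

lemma LAM_mul (F w : R[X]) (p q : Fin r → R[X]) :
    LAM F (fun i => w * p i) q = LAM F p (fun i => w * q i) := by
  rw [LAM, LAM]
  refine Finset.sum_congr rfl (fun π _ => ?_)
  congr 1
  ext1 j
  congr 1
  ring

lemma cons_eta {m : ℕ} (P : Fin (m + 1) → R[X]) (a : R[X]) (Q : Fin m → R[X]) :
    (fun j : Fin (m + 1) => odp (P j * (Fin.cons a Q : Fin (m + 1) → R[X]) j))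
      = (Fin.cons (odp (P 0 * a)) (fun j : Fin m => odp (P j.succ * Q j)) :
        Fin (m + 1) → R[X]) := by
  ext1 j
  refine Fin.cases ?_ (fun i => ?_) j
  · simp only [Fin.cons_zero]
  · simp only [Fin.cons_succ]

/-- **Plucker relation**: moving one element of a family of `r + 1`. -/
theorem plucker [CharP R 2] {m : ℕ} (F w : R[X]) (P : Fin (m + 2) → R[X]) (Q : Fin m → R[X]) :
    ∑ l : Fin (m + 2), LAM F (fun j : Fin (m + 1) => P (Equiv.swap 0 l j.succ))
      (Fin.cons (w * P l) Q : Fin (m + 1) → R[X]) = 0 := by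
  set G : Equiv.Perm (Fin (m + 2)) → R := fun θ =>
    dd F (Fin.cons (odp (P (θ 1) * (w * P (θ 0)))) (fun j : Fin m => odp (P (θ j.succ.succ) * Q j)) :
      Fin (m + 1) → R[X]) with hG
  have h0 : ∑ θ, G θ = 0 := by
    refine Finset.sum_involution (fun θ _ => θ * Equiv.swap 0 1) ?_ ?_ ?_ ?_
    · intro θ _
      have key : G (θ * Equiv.swap 0 1) = G θ := by
        have hw : P (θ 0) * (w * P (θ 1)) = P (θ 1) * (w * P (θ 0)) := by ring
        have hs : ∀ j : Fin m, Equiv.swap (0 : Fin (m + 2)) 1 j.succ.succ = j.succ.succ := by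
          intro j
          refine Equiv.swap_apply_of_ne_of_ne (Fin.succ_ne_zero _) ?_
          intro h
          have h2 := congrArg Fin.val h
          simp at h2
        simp only [hG, Equiv.Perm.mul_apply, Equiv.swap_apply_left, Equiv.swap_apply_right, hs, hw]
      rw [key]
      exact CharTwo.add_self_eq_zero _
    · intro θ _ _ hh
      have h1 := congrArg (fun t : Equiv.Perm (Fin (m + 2)) => t 0) hh
      simp only [Equiv.Perm.mul_apply, Equiv.swap_apply_left] at h1
      have h2 := θ.injective h1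
      have h3 := congrArg Fin.val h2
      simp at h3
    · intro θ _
      exact mem_univ _
    · intro θ _
      rw [mul_assoc, Equiv.swap_mul_self, mul_one]
  rw [← h0, ← Equiv.sum_comp (Equiv.Perm.decomposeFin (n := m + 1)).symm G, Fintype.sum_prod_type]
  refine Finset.sum_congr rfl (fun l _ => ?_)
  rw [LAM_comm, LAM]
  refine Finset.sum_congr rfl (fun π _ => ?_)
  simp only [hG]
  rw [show (1 : Fin (m + 2)) = Fin.succ 0 from rfl]
  simp only [Equiv.Perm.decomposeFin_symm_apply_zero, Equiv.Perm.decomposeFin_symm_apply_succ]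
  congr 1
  rw [← cons_eta (fun j => P (Equiv.swap 0 l (π j).succ))]
  ext1 j
  rw [mul_comm]

end calculus

end Pool.Agent.Helper70.CYC
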